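import Pool.Agent.L0h31.GT.Stm

/-!
# Fubini for the top row of Gelfand-Tsetlin patterns
-/

set_option autoImplicit false

open MeasureTheory Filter Topology

namespace Pool.Agent.L0h34.GT

open Pool.Agent.L0h31.GT

theorem isClosed_IB {n : ℕ} (l : Fin (n + 1) → ℝ) : IsClosed (IB l) := by
  have e : IB l = ⋂ j, {μ : Fin n → ℝ | l j.castSucc ≤ μ j ∧ μ j ≤ l j.succ} := by
    ext μ
    simp only [IB, Set.mem_ofPred_eq, Set.mem_iInter]
  rw [e]
  refine isClosed_iInter fun j => ?_
  exact (isClosed_le continuous_const (continuous_apply j)).inter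
    (isClosed_le (continuous_apply j) continuous_const)

theorem isClosed_joint : ∀ m : ℕ,
    IsClosed {p : (Tri m → ℝ) × (Fin (m + 1) → ℝ) | p.1 ∈ GTp m p.2}
  | 0 => by
    have e : {p : (Tri 0 → ℝ) × (Fin (0 + 1) → ℝ) | p.1 ∈ GTp 0 p.2} = Set.univ := by
      ext p
      simp only [Set.mem_ofPred_eq, Set.mem_univ, iff_true]
      exact Set.mem_univ _
    rw [e]
    exact isClosed_univ
  | (m + 1) => by
    have ih := isClosed_joint m
    have e : {p : (Tri (m + 1) → ℝ) × (Fin (m + 1 + 1) → ℝ) | p.1 ∈ GTp (m + 1) p.2} =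
        (⋂ j : Fin (m + 1), {p : (Tri (m + 1) → ℝ) × (Fin (m + 1 + 1) → ℝ) |
          p.2 j.castSucc ≤ p.1 (Sum.inr j) ∧ p.1 (Sum.inr j) ≤ p.2 j.succ}) ∩
        (fun p : (Tri (m + 1) → ℝ) × (Fin (m + 1 + 1) → ℝ) =>
          ((fun t : Tri m => p.1 (Sum.inl t), fun j : Fin (m + 1) => p.1 (Sum.inr j)) :
            (Tri m → ℝ) × (Fin (m + 1) → ℝ))) ⁻¹' {p | p.1 ∈ GTp m p.2} := by
      ext p
      simp only [Set.mem_inter_iff, Set.mem_iInter, Set.mem_ofPred_eq, Set.mem_preimage]
      exact Iff.rfl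
    rw [e]
    refine IsClosed.inter (isClosed_iInter fun j => ?_) (ih.preimage ?_)
    · have h1 : Continuous fun p : (Tri (m + 1) → ℝ) × (Fin (m + 1 + 1) → ℝ) =>
          p.1 (Sum.inr j) := (continuous_apply (Sum.inr j : Tri m ⊕ Fin (m + 1))).comp continuous_fst
      have h2 : Continuous fun p : (Tri (m + 1) → ℝ) × (Fin (m + 1 + 1) → ℝ) =>
          p.2 j.castSucc := (continuous_apply _).comp continuous_snd
      have h3 : Continuous fun p : (Tri (m + 1) → ℝ) × (Fin (m + 1 + 1) → ℝ) =>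
          p.2 j.succ := (continuous_apply _).comp continuous_snd
      exact (isClosed_le h2 h1).inter (isClosed_le h1 h3)
    · refine Continuous.prodMk (continuous_pi fun t => ?_) (continuous_pi fun j => ?_)
      · exact (continuous_apply (Sum.inl t : Tri m ⊕ Fin (m + 1))).comp continuous_fst
      · exact (continuous_apply (Sum.inr j : Tri m ⊕ Fin (m + 1))).comp continuous_fst

theorem isClosed_GTp (m : ℕ) (l : Fin (m + 1) → ℝ) : IsClosed (GTp m l) :=
  (isClosed_joint m).preimage (Continuous.prodMk continuous_id continuous_const :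
    Continuous fun x : Tri m → ℝ => ((x, l) : (Tri m → ℝ) × (Fin (m + 1) → ℝ)))

theorem IB_mono {n : ℕ} {l : Fin (n + 2) → ℝ} {μ : Fin (n + 1) → ℝ} (h : μ ∈ IB l) :
    Monotone μ := by
  rw [Fin.monotone_iff_le_succ]
  intro i
  have h1 := (h i.castSucc).2
  have h2 := (h i.succ).1
  have e : (i.castSucc).succ = (i.succ).castSucc := Fin.succ_castSucc i
  rw [e] at h1
  exact h1.trans h2

theorem GTp_bdd : ∀ (m : ℕ) (l : Fin (m + 1) → ℝ), Monotone l → ∀ x ∈ GTp m l, ∀ t : Tri m,
    l 0 ≤ x t ∧ x t ≤ l (Fin.last m)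
  | 0, _, _, _, _, t => Empty.elim t
  | (m + 1), l, hl, x, hx, t => by
    have h1 : ∀ j : Fin (m + 1), l 0 ≤ x (Sum.inr j) ∧ x (Sum.inr j) ≤ l (Fin.last (m + 1)) :=
      fun j => ⟨(hl (Fin.zero_le _)).trans (hx.1 j).1, (hx.1 j).2.trans (hl (Fin.le_last _))⟩
    match t with
    | Sum.inr j => exact h1 j
    | Sum.inl t =>
      have hm : Monotone (fun j : Fin (m + 1) => x (Sum.inr j)) := by
        apply IB_mono (l := l)
        exact hx.1
      have h2 := GTp_bdd m _ hm _ hx.2 t
      exact ⟨(h1 0).1.trans h2.1, h2.2.trans (h1 (Fin.last m)).2⟩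

theorem isCompact_GTp (m : ℕ) (l : Fin (m + 1) → ℝ) (hl : Monotone l) : IsCompact (GTp m l) := by
  have h1 : IsCompact (Set.pi Set.univ fun _ : Tri m => Set.Icc (l 0) (l (Fin.last m))) :=
    isCompact_univ_pi fun _ => isCompact_Icc
  refine h1.of_isClosed_subset (isClosed_GTp m l) ?_
  intro x hx t _
  exact GTp_bdd m l hl x hx t

theorem t_REC : S_REC := by
  intro m l F hl hF
  let e : ((Tri m → ℝ) × (Fin (m + 1) → ℝ)) ≃ᵐ (Tri (m + 1) → ℝ) :=
    (MeasurableEquiv.sumPiEquivProdPi (fun _ : Tri m ⊕ Fin (m + 1) => ℝ)).symm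
  have he : MeasurePreserving e (volume.prod volume) volume :=
    (volume_measurePreserving_sumPiEquivProdPi (fun _ : Tri m ⊕ Fin (m + 1) => ℝ)).symm
  have hval : ∀ p, e p = (Sum.elim p.1 p.2 : Tri (m + 1) → ℝ) := by
    intro p
    funext t
    match t with
    | Sum.inl t => rfl
    | Sum.inr j => rfl
  set S : Set ((Tri m → ℝ) × (Fin (m + 1) → ℝ)) := e ⁻¹' GTp (m + 1) l with hS
  have hmem : ∀ y μ, (y, μ) ∈ S ↔ μ ∈ IB l ∧ y ∈ GTp m μ := by
    intro y μ
    rw [hS, Set.mem_preimage, hval]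
    exact Iff.rfl
  have hSm : MeasurableSet S := e.measurable (isClosed_GTp (m + 1) l).measurableSet
  have h1 : ∫ x in GTp (m + 1) l, F x = ∫ p in S, F (e p) ∂(volume.prod volume) :=
    (he.setIntegral_preimage_emb e.measurableEmbedding F (GTp (m + 1) l)).symm
  have hint : IntegrableOn F (GTp (m + 1) l) volume :=
    hF.continuousOn.integrableOn_compact (isCompact_GTp (m + 1) l hl)
  have hint2 : IntegrableOn (fun p => F (e p)) S (volume.prod volume) :=
    (he.integrableOn_comp_preimage e.measurableEmbedding).2 hint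
  have hint3 : Integrable (S.indicator fun p => F (e p)) (volume.prod volume) :=
    (integrable_indicator_iff hSm).2 hint2
  rw [h1, ← integral_indicator hSm, integral_prod_symm _ hint3, ← integral_indicator
    (isClosed_IB l).measurableSet]
  congr 1
  funext μ
  by_cases hμ : μ ∈ IB l
  · rw [Set.indicator_of_mem hμ, ← integral_indicator (isClosed_GTp m μ).measurableSet]
    congr 1
    funext y
    by_cases hy : y ∈ GTp m μ
    · rw [Set.indicator_of_mem hy, Set.indicator_of_mem ((hmem y μ).2 ⟨hμ, hy⟩), hval]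
    · rw [Set.indicator_of_notMem hy, Set.indicator_of_notMem fun h => hy ((hmem y μ).1 h).2]
  · rw [Set.indicator_of_notMem hμ]
    have h0 : (fun y => S.indicator (fun p => F (e p)) (y, μ)) = fun _ => (0 : ℝ) := by
      funext y
      exact Set.indicator_of_notMem (fun h => hμ ((hmem y μ).1 h).1) _
    rw [h0, integral_zero]

end Pool.Agent.L0h34.GT
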